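import Pool.Agent.N569.VT.Typ
import Pool.Agent.N362.VT.VT4

/-!
# VU3: outsides which look alike have the same normalised brackets (helper48)
-/

set_option autoImplicit false

namespace Pool.Agent.N48.VU

open Pool.Agent.H891R2.Jones Pool.Agent.W639.RB Pool.Agent.TH561 Pool.Agent.N569.TW Pool.Agent.N569.VT
  Finset LaurentPolynomial

variable {m : ℕ}

theorem weight_cast {n n' : ℕ} (h : n = n') (s : Fin n → Bool) (s' : Fin n' → Bool)
    (hs : ∀ i, s i = s' (Fin.cast h i)) : Diagram.weight s = Diagram.weight s' := by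
  subst h
  congr 1
  funext i
  exact hs i

theorem bracket_alike
    (mat_type : ∀ (X Y : Lk m), X.part = Y.part → X.free = Y.free → ∀ N : ℕ, X.mat N = Y.mat N)
    (hm : 0 < m) (O O' : Outer m) (h : Alike O O') (W : List (Bool × ℕ))
    (hW : ∀ x ∈ W, x.2 + 1 < m) : (draw O W).close.bracket = (draw O' W).close.bracket := by
  have h3 : dl * (draw O W).close.bracket = dl * (draw O' W).close.bracket := by
    apply eq_of_ev
    intro N hN
    rw [Pool.Agent.N362.VT.bracket_ev hm O W hW N hN, Pool.Agent.N362.VT.bracket_ev hm O' W hW N hN]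
    refine Fintype.sum_equiv (Equiv.arrowCongr (finCongr h.len) (Equiv.refl Bool)) _ _ fun σ => ?_
    have hs : ∀ i : Fin O.crossings.length,
        σ i = (Equiv.arrowCongr (finCongr h.len) (Equiv.refl Bool)) σ (Fin.cast h.len i) := by
      intro i
      simp
    rw [weight_cast h.len σ _ hs, mat_type _ _ (h.part _ _ hs) (h.free _ _ hs) N]
  refine mul_left_cancel₀ ?_ h3
  intro h0
  have := at1_dl
  rw [h0, map_zero] at this
  norm_num at this

/-- VU3 -/
theorem fPoly_alike
    (mat_type : ∀ (X Y : Lk m), X.part = Y.part → X.free = Y.free → ∀ N : ℕ, X.mat N = Y.mat N)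
    (writhe_up : ∀ (O O' : Outer m), O.up = O'.up → ∀ (W : List (Bool × ℕ)), (∀ x ∈ W, x.2 + 1 < m) →
      (draw O W).close.writhe - O.close.writhe = (draw O' W).close.writhe - O'.close.writhe)
    (hm : 0 < m) (O O' : Outer m) (h : Alike O O') (W : List (Bool × ℕ))
    (hW : ∀ x ∈ W, x.2 + 1 < m) : (draw O W).close.fPoly = (draw O' W).close.fPoly := by
  have h1 := writhe_up O O' h.up W hW
  rw [h.wr] at h1
  have h2 : (draw O W).close.writhe = (draw O' W).close.writhe := by linarith
  unfold Diagram.fPoly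
  rw [h2, bracket_alike mat_type hm O O' h W hW]

end Pool.Agent.N48.VU
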